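import Pool.Agent.H790Z.AP.Defs
import Pool.Agent.H790Z.AP.Main

set_option autoImplicit false

namespace Pool.Agent.Results.MP_5d3202_gt.AStrict

open Pool.Agent.H790Z.AP

/-- For every irreducible Artin-Tits group of spherical type and rank at least three, the word
length with respect to `X_P` is unbounded on `X_NP`. -/
theorem result {S : Type} [Fintype S] [DecidableEq S] (M : CoxeterMatrix S)
    (hspherical : Finite M.Group) (hirreducible : (diagram M).Connected)
    (hrank : 3 ≤ Fintype.card S) (Δ : ArtinTits M) (hΔ : IsGarside M Δ) (N : ℕ) :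
    ∃ g ∈ XNP M, N < wordLength (XP M Δ) g :=
  main hspherical hirreducible hrank Δ hΔ N

end Pool.Agent.Results.MP_5d3202_gt.AStrict
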